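import Pool.Agent.Helper15.UL.GoalsE

/-! # MP_57a173_lc: packet TRU -/

noncomputable section

namespace UL.PkTRU

open Pool.Agent.Helper97.Ku NU MeasureTheory

theorem thm : UL.G_BP → UL.G_TRU := by
  intro hBP I _ _ hHF κ _ a S ω hω hS hD hF
  rcases isEmpty_or_nonempty κ with hκ | hκ
  · exact ⟨id, IsM.id', fun k => (hκ.false k).elim⟩
  obtain ⟨e, he⟩ := exists_surjective_nat κ
  have hden : ∀ i, Dns Set.univ (fun g : Pt I → Pt I => ∀ z, g z ∈ S (e i)) := by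
    intro i g hg
    obtain ⟨h, hh, h1 | h1⟩ := (hBP I hHF).1 (S (e i)) (hS _) g hg.1
    · exact ⟨h, MD_univ.2 hh, h1⟩
    · exfalso
      have h2 := ((hD (e i)) (g ∘ h) (hg.1.comp hh)).2 h1
      exact ((hF (e i)).comp (hg.1.comp hh)).not_both h2
  have hop : ∀ i, Opn Set.univ (fun g : Pt I → Pt I => ∀ z, g z ∈ S (e i)) := by
    intro i f g _ hQ _ z
    exact hQ (g z)
  obtain ⟨g, hg, -, hc⟩ := hHF Set.univ (fun _ => 0) isLowerSet_univ (by simp [Fin0])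
    (fun _ _ => rfl) (fun i g => ∀ z, g z ∈ S (e i)) hden hop
  refine ⟨g, hg.1, fun k z => ?_⟩
  obtain ⟨i, rfl⟩ := he k
  obtain ⟨A, -, -, h⟩ := hc i
  obtain ⟨τ, -, -, hz, hQ⟩ := h z
  obtain ⟨w, rfl⟩ := mem_B_iff.1 hz
  exact hQ w

end UL.PkTRU
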